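import Pool.Agent.Helper57.TW.Goals

/-!
# Packet T74B-IP: interpolation of the wide tent by narrow tents
-/

set_option autoImplicit false

open Finset

namespace Pool.Agent.Helper91.TW

open Pool.Agent.Helper88.CG (tw)
open Pool.Agent.Helper57.TW (te)

/-- Piecewise linear interpolation of the tent function. -/
theorem interp (M : ℕ) (hM : 1 ≤ M) (y : ℝ) :
    max 0 (1 - |y - M| / M) =
      ∑ i ∈ range (2 * M + 1), (1 - |(i : ℝ) - M| / M) * max 0 (1 - |y - i|) := by
  have hM0 : (0 : ℝ) < M := by exact_mod_cast hM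
  have hterm : ∀ i : ℕ, 1 ≤ |y - i| → max 0 (1 - |y - (i : ℝ)|) = 0 := by
    intro i hi
    exact max_eq_left (by linarith)
  by_cases h0 : y < 0
  · rw [max_eq_left, sum_eq_zero]
    · intro i _
      rcases Nat.eq_zero_or_pos i with h | h
      · subst h
        have : |((0 : ℕ) : ℝ) - M| / M = 1 := by
          rw [Nat.cast_zero, zero_sub, abs_neg, abs_of_pos hM0, div_self hM0.ne']
        rw [this]; ring
      · rw [hterm i, mul_zero]
        have : (1 : ℝ) ≤ i := by exact_mod_cast h
        rw [abs_of_nonpos (by linarith)]; linarith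
    · have : 1 ≤ |y - M| / M := by
        rw [le_div_iff₀ hM0, abs_of_nonpos (by linarith)]; linarith
      linarith
  by_cases h2 : 2 * (M : ℝ) ≤ y
  · rw [max_eq_left, sum_eq_zero]
    · intro i hi
      have hi2 : i ≤ 2 * M := Nat.lt_succ_iff.1 (mem_range.1 hi)
      rcases hi2.eq_or_lt with h | h
      · subst h
        have : |((2 * M : ℕ) : ℝ) - M| / M = 1 := by
          push_cast
          rw [show (2 : ℝ) * M - M = M by ring, abs_of_pos hM0, div_self hM0.ne']
        rw [this]; ring
      · rw [hterm i, mul_zero]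
        have : (i : ℝ) + 1 ≤ 2 * M := by exact_mod_cast h
        rw [abs_of_nonneg (by linarith)]; linarith
    · have : 1 ≤ |y - M| / M := by
        rw [le_div_iff₀ hM0, abs_of_nonneg (by linarith)]; linarith
      linarith
  push Not at h0 h2
  obtain ⟨j, hj⟩ : ∃ j : ℕ, ⌊y⌋₊ = j := ⟨_, rfl⟩
  have hj1 : (j : ℝ) ≤ y := hj ▸ Nat.floor_le h0
  have hj2 : y < j + 1 := hj ▸ Nat.lt_floor_add_one y
  have hj3 : j < 2 * M := by
    have : (j : ℝ) < ((2 * M : ℕ) : ℝ) := by push_cast; linarith
    exact_mod_cast this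
  have hsub : ({j, j + 1} : Finset ℕ) ⊆ range (2 * M + 1) := by
    intro i hi
    rw [mem_insert, mem_singleton] at hi
    rw [mem_range]
    omega
  rw [← sum_subset hsub, sum_pair (by omega)]
  · rw [max_eq_right, max_eq_right, max_eq_right]
    · rw [abs_of_nonneg (by linarith : (0 : ℝ) ≤ y - j)]
      have e1 : y - ((j + 1 : ℕ) : ℝ) ≤ 0 := by push_cast; linarith
      rw [abs_of_nonpos e1]
      rcases lt_or_ge j M with h | h
      · have h1 : (j : ℝ) + 1 ≤ M := by exact_mod_cast h
        have e2 : ((j + 1 : ℕ) : ℝ) - M ≤ 0 := by push_cast; linarith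
        rw [abs_of_nonpos (by linarith : y - M ≤ 0), abs_of_nonpos (by linarith : (j : ℝ) - M ≤ 0),
          abs_of_nonpos e2]
        push_cast
        field_simp
        ring
      · have h1 : (M : ℝ) ≤ j := by exact_mod_cast h
        have e2 : 0 ≤ ((j + 1 : ℕ) : ℝ) - M := by push_cast; linarith
        rw [abs_of_nonneg (by linarith : 0 ≤ y - M), abs_of_nonneg (by linarith : 0 ≤ (j : ℝ) - M),
          abs_of_nonneg e2]
        push_cast
        field_simp
        ring
    · have : y - ((j + 1 : ℕ) : ℝ) ≤ 0 := by push_cast; linarith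
      rw [abs_of_nonpos this]
      push_cast
      linarith
    · rw [abs_of_nonneg (by linarith : (0 : ℝ) ≤ y - j)]; linarith
    · have : |y - M| / M ≤ 1 := by
        rw [div_le_iff₀ hM0, abs_le]
        constructor <;> linarith
      linarith
  · intro i hi hi'
    rw [mem_insert, mem_singleton, not_or] at hi'
    rw [hterm i, mul_zero]
    rcases lt_or_ge i j with h | h
    · have : (i : ℝ) + 1 ≤ j := by exact_mod_cast h
      rw [abs_of_nonneg (by linarith)]; linarith
    · have h3 : j + 2 ≤ i := by omega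
      have : (j : ℝ) + 2 ≤ i := by exact_mod_cast h3
      rw [abs_of_nonpos (by linarith)]; linarith

/-- Packet T74B-IP. -/
theorem ip : Pool.Agent.Helper57.TW.StmtIP := by
  intro x n M hx hn hM
  have hx0 : (0 : ℝ) < x := by exact_mod_cast hx
  have hn0 : (0 : ℝ) < n := by exact_mod_cast hn
  have hM0 : (0 : ℝ) < M := by exact_mod_cast hM
  have hl : 0 < Real.log 4 := Real.log_pos (by norm_num)
  set h : ℝ := Real.log 4 / M with hh
  have hh0 : 0 < h := div_pos hl hM0
  have hl4 : Real.log 4 = h * M := by rw [hh]; field_simp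
  set y : ℝ := Real.log (16 * n / x) / h with hy
  have hy' : Real.log (16 * n / x) = h * y := by rw [hy]; field_simp
  have e1 : Real.log (4 * n / x) = h * (y - M) := by
    have : (4 : ℝ) * n / x = (16 * n / x) / 4 := by ring
    rw [this, Real.log_div (by positivity) (by norm_num), hy', hl4]; ring
  have e2 : ∀ i : ℕ, Real.log (n / (x / 16 * Real.exp (i * h))) = h * (y - i) := by
    intro i
    have : (n : ℝ) / (x / 16 * Real.exp (i * h)) = (16 * n / x) / Real.exp (i * h) := by
      field_simp
    rw [this, Real.log_div (by positivity) (Real.exp_ne_zero _), hy', Real.log_exp]; ring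
  have e3 : tw x n = max 0 (1 - |y - M| / M) := by
    unfold tw
    rw [e1, hl4, abs_mul, abs_of_pos hh0, mul_div_mul_left _ _ hh0.ne']
  rw [e3, interp M hM y]
  refine sum_congr rfl fun i _ => ?_
  unfold te
  rw [e2 i, abs_mul, abs_of_pos hh0, mul_div_cancel_left₀ _ hh0.ne']

end Pool.Agent.Helper91.TW
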